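import Pool.Agent.H41.Pl4

set_option autoImplicit false
open Pool.Agent.H41.Pl

theorem Pool.Agent.Results.MP_f81d0d_gt.Yes.result :
    ∃ G : AddSubgroup (WithLp 1 (ℝ × ℝ)), Dense (G : Set (WithLp 1 (ℝ × ℝ))) ∧ Plastic G :=
  exists_plastic (WithLp.prodContinuousLinearEquiv 1 ℝ ℝ ℝ).symm
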